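import Pool.Agent.Q56.EE.Key

/-!
# The double sum over an odd number of zero positions: the general bound
-/

namespace Pool.Agent.Q56.EE

open Finset
open scoped symmDiff

set_option linter.unusedSectionVars false

variable {X Y : Type} [Fintype X] [DecidableEq X] [Fintype Y] [DecidableEq Y]

/-- the sum of the entries of the row `u` in the columns of the positions of the row `x` -/
def qq (P : Finset (X × Y)) (M : X → Y → ℝ) (x u : X) : ℝ :=
  ∑ y, if (x, y) ∈ P then M u y else 0

/-- the double sum -/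
def dsum (P : Finset (X × Y)) (M : X → Y → ℝ) : ℝ :=
  ∑ a ∈ P, ∑ b ∈ P, M a.1 b.2 * M b.1 a.2

theorem sum_pos (P : Finset (X × Y)) (F : X × Y → ℝ) :
    ∑ a ∈ P, F a = ∑ x, ∑ y, if (x, y) ∈ P then F (x, y) else 0 := by
  rw [← Fintype.sum_prod_type' (f := fun x y => if (x, y) ∈ P then F (x, y) else 0)]
  simp

theorem dsum_eq (P : Finset (X × Y)) (M : X → Y → ℝ) :
    dsum P M = ∑ x, ∑ u, qq P M x u * qq P M u x := by
  unfold dsum
  rw [sum_pos]
  refine Finset.sum_congr rfl fun x _ => ?_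
  simp only [sum_pos, qq]
  simp only [Finset.sum_mul_sum]
  rw [Finset.sum_comm]
  refine Finset.sum_congr rfl fun y _ => ?_
  by_cases h : (x, y) ∈ P
  · simp only [h, if_true]
    refine Finset.sum_congr rfl fun u _ => Finset.sum_congr rfl fun y' _ => ?_
    by_cases h' : (u, y') ∈ P
    · simp only [h', if_true]
      ring
    · simp [h']
  · simp [h]

section basic
variable {P : Finset (X × Y)} {M : X → Y → ℝ} {ρ : ℝ}

theorem qq_nonneg (hM : ∀ x y, 0 ≤ M x y) (x u : X) : 0 ≤ qq P M x u :=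
  Finset.sum_nonneg fun y _ => by
    split
    · exact hM _ _
    · exact le_rfl

theorem qq_le (hM : ∀ x y, 0 ≤ M x y) (hr : ∀ x, ∑ y, M x y ≤ ρ) (x u : X) : qq P M x u ≤ ρ := by
  refine le_trans (Finset.sum_le_sum fun y _ => ?_) (hr u)
  split
  · exact le_rfl
  · exact hM _ _

theorem qq_self (h0 : ∀ a ∈ P, M a.1 a.2 = 0) (x : X) : qq P M x x = 0 :=
  Finset.sum_eq_zero fun y _ => by
    split
    · rename_i h
      exact h0 _ h
    · rfl

/-- the number of positions in the row `x` -/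
def zz (P : Finset (X × Y)) (x : X) : ℕ := (Finset.univ.filter fun y => (x, y) ∈ P).card

theorem sum_qq_le (hc : ∀ y, ∑ x, M x y ≤ 1) (x : X) : ∑ u, qq P M x u ≤ zz P x := by
  unfold qq zz
  rw [Finset.sum_comm, Finset.card_filter]
  push_cast
  refine Finset.sum_le_sum fun y _ => ?_
  by_cases h : (x, y) ∈ P
  · simp only [h, if_true]
    exact hc y
  · simp [h]

theorem sum_zz (P : Finset (X × Y)) : ∑ x, zz P x = P.card := by
  have h : (P.card : ℕ) = ∑ a ∈ P, 1 := by simp
  unfold zz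
  simp only [Finset.card_filter]
  rw [h, ← Fintype.sum_prod_type' (f := fun x y => if (x, y) ∈ P then 1 else 0)]
  simp

/-- the pattern of the column `y` -/
def pat (P : Finset (X × Y)) (y : Y) : Finset X := Finset.univ.filter fun x => (x, y) ∈ P

theorem sum_pat (P : Finset (X × Y)) : ∑ y, (pat P y).card = P.card := by
  rw [← sum_zz P]
  unfold pat zz
  simp only [Finset.card_filter]
  rw [Finset.sum_comm]

theorem sum_inter_pat (P : Finset (X × Y)) (M : X → Y → ℝ) (A : Finset X) (v : X) :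
    ∑ y, M v y * ((A ∩ pat P y).card : ℝ) = ∑ x ∈ A, qq P M x v := by
  unfold qq
  rw [Finset.sum_comm]
  refine Finset.sum_congr rfl fun y _ => ?_
  have : A ∩ pat P y = A.filter fun x => (x, y) ∈ P := by
    ext x
    simp [pat]
  rw [this, Finset.card_filter]
  push_cast
  rw [Finset.mul_sum]
  refine Finset.sum_congr rfl fun x _ => ?_
  by_cases h : (x, y) ∈ P <;> simp [h]

theorem card_symmDiff_real (A Z : Finset X) :
    ((A ∆ Z).card : ℝ) = A.card + Z.card - 2 * ((A ∩ Z).card : ℝ) := by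
  have h1 : (A ∆ Z).card + 2 * (A ∩ Z).card = A.card + Z.card := by
    have h2 : (A ∆ Z).card = (A \ Z).card + (Z \ A).card := by
      rw [← Finset.card_union_of_disjoint]
      · rfl
      · exact disjoint_sdiff_sdiff
    have h3 := Finset.card_sdiff_add_card_inter A Z
    have h4 := Finset.card_sdiff_add_card_inter Z A
    rw [Finset.inter_comm Z A] at h4
    omega
  have h5 : ((A ∆ Z).card : ℝ) + 2 * ((A ∩ Z).card : ℝ) = A.card + Z.card := by exact_mod_cast h1
  linarith

/-- **The key inequality.** -/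
theorem key_ineq (hM : ∀ x y, 0 ≤ M x y) (hρ : 0 ≤ ρ) (hr : ∀ x, ∑ y, M x y ≤ ρ)
    (hc : ∀ y, ∑ x, M x y ≤ 1) (hP : Odd P.card) (adj : X → X → Prop) [DecidableRel adj]
    (hs : ∀ v w, adj v w → adj w v) (hi : ∀ v, ¬ adj v v) :
    1 ≤ (P.card : ℝ) + ∑ v, ∑ x ∈ nb adj Finset.univ v, (ρ - 2 * qq P M x v) := by
  have hodd : Odd ((Finset.univ.val.map (pat P)).map Finset.card).sum := by
    rw [Multiset.map_map]
    change Odd (∑ y, (pat P y).card)
    rw [sum_pat]
    exact hP
  obtain ⟨H, hH, h1⟩ := key hs hi _ Finset.univ rfl ρ hρ (Finset.univ.val.map (pat P)) hodd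
  have h2 : ((Finset.univ.val.map (pat P)).map H).sum = ∑ y, H (pat P y) := by
    rw [Multiset.map_map]
    rfl
  rw [h2] at h1
  set A := nb adj Finset.univ with hA
  have h3 : ρ * ∑ v, H (A v) - ∑ y, H (pat P y) =
      ∑ v, ∑ y, M v y * (H (A v) - H (pat P y)) + ∑ v, (ρ - ∑ y, M v y) * H (A v)
        - ∑ y, (1 - ∑ v, M v y) * H (pat P y) := by
    have e1 : ∑ v, ∑ y, M v y * (H (A v) - H (pat P y)) =
        ∑ v, (∑ y, M v y) * H (A v) - ∑ y, (∑ v, M v y) * H (pat P y) := by
      simp only [mul_sub, Finset.sum_sub_distrib]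
      congr 1
      · exact Finset.sum_congr rfl fun v _ => by rw [Finset.sum_mul]
      · rw [Finset.sum_comm]
        exact Finset.sum_congr rfl fun y _ => by rw [Finset.sum_mul]
    rw [e1]
    simp only [sub_mul, Finset.sum_sub_distrib, one_mul, Finset.mul_sum]
    ring
  have hle : ∀ z, |H z| ≤ (z.card : ℝ) := by
    intro z
    have := hH.lip z ∅
    rw [hH.zero, sub_zero] at this
    refine le_trans this (le_of_eq ?_)
    congr 1
    have : z ∆ ∅ = z := by
      ext x
      simp [Finset.mem_symmDiff]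
    rw [this]
  have h4 : ∑ v, ∑ y, M v y * (H (A v) - H (pat P y)) ≤
      ∑ v, ∑ y, M v y * (((A v).card : ℝ) + (pat P y).card - 2 * ((A v ∩ pat P y).card : ℝ)) := by
    refine Finset.sum_le_sum fun v _ => Finset.sum_le_sum fun y _ => ?_
    refine mul_le_mul_of_nonneg_left ?_ (hM v y)
    rw [← card_symmDiff_real]
    exact le_trans (le_abs_self _) (hH.lip _ _)
  have h5 : ∑ v, (ρ - ∑ y, M v y) * H (A v) ≤ ∑ v, (ρ - ∑ y, M v y) * ((A v).card : ℝ) := by
    refine Finset.sum_le_sum fun v _ => mul_le_mul_of_nonneg_left ?_ (by linarith [hr v])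
    exact le_trans (le_abs_self _) (hle _)
  have h6 : - ∑ y, (1 - ∑ v, M v y) * H (pat P y) ≤
      ∑ y, (1 - ∑ v, M v y) * ((pat P y).card : ℝ) := by
    rw [← Finset.sum_neg_distrib]
    refine Finset.sum_le_sum fun y _ => ?_
    rw [← mul_neg]
    refine mul_le_mul_of_nonneg_left ?_ (by linarith [hc y])
    exact le_trans (neg_le_abs _) (hle _)
  have h7 : ∑ v, ∑ y, M v y * (((A v).card : ℝ) + (pat P y).card - 2 * ((A v ∩ pat P y).card : ℝ))
      = ∑ v, (∑ y, M v y) * ((A v).card : ℝ) + ∑ y, (∑ v, M v y) * ((pat P y).card : ℝ)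
        - 2 * ∑ v, ∑ x ∈ A v, qq P M x v := by
    simp only [mul_sub, mul_add, Finset.sum_sub_distrib, Finset.sum_add_distrib]
    congr 1
    · congr 1
      · exact Finset.sum_congr rfl fun v _ => by rw [Finset.sum_mul]
      · rw [Finset.sum_comm]
        exact Finset.sum_congr rfl fun y _ => by rw [Finset.sum_mul]
    · rw [Finset.mul_sum]
      refine Finset.sum_congr rfl fun v _ => ?_
      rw [← sum_inter_pat, Finset.mul_sum]
      exact Finset.sum_congr rfl fun y _ => by ring
  have h8 : ∑ v, ∑ x ∈ A v, (ρ - 2 * qq P M x v) =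
      ρ * ∑ v, ((A v).card : ℝ) - 2 * ∑ v, ∑ x ∈ A v, qq P M x v := by
    simp only [Finset.sum_sub_distrib, Finset.sum_const, nsmul_eq_mul, Finset.mul_sum]
    congr 1
    exact Finset.sum_congr rfl fun v _ => by ring
  have h9 : (P.card : ℝ) = ∑ y, ((pat P y).card : ℝ) := by
    rw [← sum_pat P]
    push_cast
    rfl
  rw [h8, h9]
  have h10 : ∑ v, (ρ - ∑ y, M v y) * ((A v).card : ℝ) =
      ρ * ∑ v, ((A v).card : ℝ) - ∑ v, (∑ y, M v y) * ((A v).card : ℝ) := by
    simp only [sub_mul, Finset.sum_sub_distrib, Finset.mul_sum]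
  have h11 : ∑ y, (1 - ∑ v, M v y) * ((pat P y).card : ℝ) =
      ∑ y, ((pat P y).card : ℝ) - ∑ y, (∑ v, M v y) * ((pat P y).card : ℝ) := by
    simp only [sub_mul, Finset.sum_sub_distrib, one_mul]
  linarith

end basic

end Pool.Agent.Q56.EE
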