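import Pool.Agent.Q56.EE.Bound

/-!
# The double sum over an odd number of zero positions: the general bound, final form
-/

namespace Pool.Agent.Q56.EE

open Finset

set_option linter.unusedSectionVars false

variable {X Y : Type} [Fintype X] [DecidableEq X] [Fintype Y] [DecidableEq Y]

/-- the elementary inequality -/
theorem real_ineq {ρ a E : ℝ} (hρ : 1 ≤ ρ) (ha : 0 ≤ a) (h1 : 1 ≤ E) (h2 : a ≤ E) :
    ρ - 1 / 2 ≤ ρ * E - a * min a ρ / 2 := by
  rcases le_total a 1 with h | h
  · have h3 : min a ρ ≤ a := min_le_left _ _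
    have h4 : a * min a ρ ≤ 1 := by nlinarith
    nlinarith
  · rcases le_total a ρ with h' | h'
    · rw [min_eq_left h']
      nlinarith
    · rw [min_eq_right h']
      nlinarith

/-- the bound for column sums at most one and row sums at most `ρ ≥ 1` -/
theorem bound_one {P : Finset (X × Y)} {M : X → Y → ℝ} {ρ : ℝ} (hM : ∀ x y, 0 ≤ M x y)
    (hρ : 1 ≤ ρ) (hr : ∀ x, ∑ y, M x y ≤ ρ) (hc : ∀ y, ∑ x, M x y ≤ 1)
    (h0 : ∀ a ∈ P, M a.1 a.2 = 0) (hP : Odd P.card) :
    dsum P M ≤ ρ * P.card - (ρ - 1 / 2) := by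
  classical
  set S : X → X → ℝ := fun x u => qq P M x u + qq P M u x with hS
  have hSs : ∀ x u, S x u = S u x := fun x u => add_comm _ _
  have hSi : ∀ x, S x x = 0 := fun x => by simp [hS, qq_self h0]
  have hS0 : ∀ x u, 0 ≤ S x u := fun x u => add_nonneg (qq_nonneg hM _ _) (qq_nonneg hM _ _)
  have hS2 : ∀ x u, S x u ≤ 2 * ρ := fun x u => by
    have := qq_le (P := P) hM hr x u
    have := qq_le (P := P) hM hr u x
    simp only [hS]
    linarith
  have hkey := key_ineq hM (by linarith) hr hc hP (fun v x => ρ < S v x)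
    (fun v w h => by rw [hSs]; exact h) (fun v h => by rw [hSi] at h; linarith)
  -- the sum in the key inequality
  have e1 : ∑ v, ∑ x ∈ nb (fun v x => ρ < S v x) Finset.univ v, (ρ - 2 * qq P M x v) =
      - ∑ v, ∑ x, max (S v x - ρ) 0 := by
    have e2 : ∀ v x, (if ρ < S v x then (ρ - S v x) else 0) = - max (S v x - ρ) 0 := by
      intro v x
      by_cases h : ρ < S v x
      · rw [if_pos h, max_eq_left (by linarith)]
        ring
      · rw [if_neg h, max_eq_right (by linarith)]
        simp
    have e3 : ∑ v, ∑ x ∈ nb (fun v x => ρ < S v x) Finset.univ v, (ρ - 2 * qq P M x v) =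
        ∑ v, ∑ x, if ρ < S v x then (ρ - 2 * qq P M x v) else 0 := by
      refine Finset.sum_congr rfl fun v _ => ?_
      unfold nb
      rw [Finset.sum_filter]
    have e4 : ∑ v, ∑ x, (if ρ < S v x then (ρ - 2 * qq P M x v) else 0) =
        ∑ v, ∑ x, if ρ < S v x then (ρ - 2 * qq P M v x) else 0 := by
      rw [Finset.sum_comm]
      refine Finset.sum_congr rfl fun v _ => Finset.sum_congr rfl fun x _ => ?_
      rw [hSs]
    have e5 : 2 * ∑ v, ∑ x, (if ρ < S v x then (ρ - 2 * qq P M x v) else 0) =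
        2 * ∑ v, ∑ x, if ρ < S v x then (ρ - S v x) else 0 := by
      rw [two_mul]
      nth_rewrite 2 [e4]
      rw [← Finset.sum_add_distrib, Finset.mul_sum]
      refine Finset.sum_congr rfl fun v _ => ?_
      rw [← Finset.sum_add_distrib, Finset.mul_sum]
      refine Finset.sum_congr rfl fun x _ => ?_
      by_cases h : ρ < S v x
      · rw [if_pos h, if_pos h, if_pos h]
        simp only [hS]
        ring
      · simp [h]
    rw [e3, mul_left_cancel₀ two_ne_zero e5]
    simp only [e2, Finset.sum_neg_distrib]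
  rw [e1] at hkey
  -- the total mass
  have ht : ∑ x, ∑ u, S x u ≤ 2 * P.card := by
    have h1 : ∑ x, ∑ u, S x u = 2 * ∑ x, ∑ u, qq P M x u := by
      simp only [hS, Finset.sum_add_distrib]
      rw [two_mul]
      congr 1
      exact Finset.sum_comm
    rw [h1, ← sum_zz P]
    push_cast
    have : ∑ x, ∑ u, qq P M x u ≤ ∑ x, (zz P x : ℝ) := Finset.sum_le_sum fun x _ => sum_qq_le hc x
    linarith
  set E : ℝ := P.card - ∑ v, ∑ x, max (S v x - ρ) 0 with hE
  have hE1 : 1 ≤ E := by
    rw [hE]
    linarith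
  set s : X → X → ℝ := fun x u => min (S x u) (2 * ρ - S x u) with hs
  have hs0 : ∀ x u, 0 ≤ s x u := fun x u => le_min (hS0 x u) (by linarith [hS2 x u])
  have hsρ : ∀ x u, s x u ≤ ρ := fun x u => by
    rcases le_total (S x u) ρ with h | h
    · exact (min_le_left _ _).trans h
    · exact (min_le_right _ _).trans (by linarith)
  have hss : ∀ x u, s x u = s u x := fun x u => by simp only [hs, hSs x u]
  have hsi : ∀ x, s x x = 0 := fun x => by
    simp only [hs, hSi]
    rw [min_eq_left]
    linarith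
  have hsS : ∀ x u, s x u = S x u - 2 * max (S x u - ρ) 0 := fun x u => by
    rcases le_total (S x u) ρ with h | h
    · simp only [hs]
      rw [min_eq_left (by linarith), max_eq_right (by linarith)]
      ring
    · simp only [hs]
      rw [min_eq_right (by linarith), max_eq_left (by linarith)]
      ring
  set a : ℝ := (∑ x, ∑ u, s x u) / 2 with ha
  have haE : a ≤ E := by
    have : ∑ x, ∑ u, s x u = ∑ x, ∑ u, S x u - 2 * ∑ x, ∑ u, max (S x u - ρ) 0 := by
      simp only [hsS, Finset.sum_sub_distrib, Finset.mul_sum]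
    rw [ha, this, hE]
    linarith
  have hsa : ∀ x u, s x u ≤ a := by
    intro x u
    by_cases hxu : x = u
    · subst hxu
      rw [hsi, ha]
      exact div_nonneg (Finset.sum_nonneg fun _ _ => Finset.sum_nonneg fun _ _ => hs0 _ _)
        (by norm_num)
    · have h1 : s x u + s u x ≤ ∑ x, ∑ u, s x u := by
        have h2 : ∀ x u, s x u ≤ ∑ u, s x u := fun x u =>
          Finset.single_le_sum (fun u _ => hs0 x u) (Finset.mem_univ u)
        have h3 : ∑ x' ∈ ({x, u} : Finset X), ∑ u, s x' u ≤ ∑ x, ∑ u, s x u :=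
          Finset.sum_le_sum_of_subset_of_nonneg (Finset.subset_univ _)
            fun i _ _ => Finset.sum_nonneg fun u _ => hs0 i u
        rw [Finset.sum_pair hxu] at h3
        linarith [h2 x u, h2 u x]
      rw [← hss x u] at h1
      rw [ha]
      linarith
  have ha0 : 0 ≤ a := by
    rw [ha]
    exact div_nonneg (Finset.sum_nonneg fun _ _ => Finset.sum_nonneg fun _ _ => hs0 _ _)
      (by norm_num)
  -- the double sum
  have hf : dsum P M ≤ ∑ x, ∑ u, (ρ * max (S x u - ρ) 0 + s x u ^ 2 / 4) := by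
    rw [dsum_eq]
    refine Finset.sum_le_sum fun x _ => Finset.sum_le_sum fun u _ => ?_
    have h1 : qq P M x u * qq P M u x ≤ S x u ^ 2 / 4 := by
      simp only [hS]
      nlinarith [sq_nonneg (qq P M x u - qq P M u x)]
    refine h1.trans (le_of_eq ?_)
    rcases le_total (S x u) ρ with h | h
    · simp only [hs]
      rw [min_eq_left (by linarith), max_eq_right (by linarith)]
      ring
    · simp only [hs]
      rw [min_eq_right (by linarith), max_eq_left (by linarith)]
      ring
  have hs2 : ∑ x, ∑ u, s x u ^ 2 / 4 ≤ a * min a ρ / 2 := by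
    have h1 : ∀ x u, s x u ^ 2 / 4 ≤ s x u * (min a ρ / 4) := by
      intro x u
      have h2 : s x u ≤ min a ρ := le_min (hsa x u) (hsρ x u)
      nlinarith [hs0 x u]
    calc ∑ x, ∑ u, s x u ^ 2 / 4 ≤ ∑ x, ∑ u, s x u * (min a ρ / 4) :=
          Finset.sum_le_sum fun x _ => Finset.sum_le_sum fun u _ => h1 x u
      _ = (∑ x, ∑ u, s x u) * (min a ρ / 4) := by
          simp only [Finset.sum_mul]
      _ = a * min a ρ / 2 := by
          rw [ha]
          ring
  have h3 := real_ineq hρ ha0 hE1 haE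
  have h4 : ∑ x, ∑ u, (ρ * max (S x u - ρ) 0 + s x u ^ 2 / 4) =
      ρ * ∑ x, ∑ u, max (S x u - ρ) 0 + ∑ x, ∑ u, s x u ^ 2 / 4 := by
    simp only [Finset.sum_add_distrib, Finset.mul_sum]
  rw [h4] at hf
  have h5 : ρ * E = ρ * P.card - ρ * ∑ x, ∑ u, max (S x u - ρ) 0 := by
    rw [hE]
    ring
  linarith

/-- scaling -/
theorem dsum_div (P : Finset (X × Y)) (M : X → Y → ℝ) (C : ℝ) (hC : C ≠ 0) :
    dsum P M = C ^ 2 * dsum P fun x y => M x y / C := by
  unfold dsum
  simp only [Finset.mul_sum]
  refine Finset.sum_congr rfl fun a _ => Finset.sum_congr rfl fun b _ => ?_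
  field_simp

/-- transposition -/
theorem dsum_swap (P : Finset (X × Y)) (M : X → Y → ℝ) :
    dsum (P.map (Equiv.prodComm X Y).toEmbedding) (fun y x => M x y) = dsum P M := by
  unfold dsum
  rw [Finset.sum_map]
  refine Finset.sum_congr rfl fun a _ => ?_
  rw [Finset.sum_map]
  refine Finset.sum_congr rfl fun b _ => ?_
  simp only [Equiv.coe_toEmbedding, Equiv.prodComm_apply, Prod.fst_swap, Prod.snd_swap]
  ring

/-- the bound for `R ≥ C` -/
theorem bound_ge {P : Finset (X × Y)} {M : X → Y → ℝ} {R C : ℝ} (hM : ∀ x y, 0 ≤ M x y)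
    (hRC : C ≤ R) (hr : ∀ x, ∑ y, M x y ≤ R) (hc : ∀ y, ∑ x, M x y ≤ C)
    (h0 : ∀ a ∈ P, M a.1 a.2 = 0) (hP : Odd P.card) :
    dsum P M ≤ (P.card - 1) * R * C + C ^ 2 / 2 := by
  have hne : P.Nonempty := by
    rw [Finset.nonempty_iff_ne_empty]
    rintro rfl
    simp at hP
  obtain ⟨⟨x0, y0⟩, -⟩ := hne
  have hC0 : 0 ≤ C := le_trans (Finset.sum_nonneg fun x _ => hM x y0) (hc y0)
  rcases hC0.lt_or_eq with hC | hC
  · have h1 := bound_one (P := P) (M := fun x y => M x y / C) (ρ := R / C)
      (fun x y => div_nonneg (hM x y) hC0) (by rw [le_div_iff₀ hC]; linarith)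
      (fun x => by
        rw [← Finset.sum_div]
        exact div_le_div_of_nonneg_right (hr x) hC0)
      (fun y => by
        rw [← Finset.sum_div, div_le_one hC]
        exact hc y)
      (fun a ha => by rw [h0 a ha]; simp) hP
    rw [dsum_div P M C hC.ne']
    have h2 := mul_le_mul_of_nonneg_left h1 (sq_nonneg C)
    refine h2.trans (le_of_eq ?_)
    field_simp
    ring
  · have hM0 : ∀ x y, M x y = 0 := by
      intro x y
      have h1 : M x y ≤ ∑ x, M x y := Finset.single_le_sum (fun x _ => hM x y) (Finset.mem_univ x)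
      have h2 := hc y
      rw [← hC] at h2
      exact le_antisymm (h1.trans h2) (hM x y)
    unfold dsum
    simp [hM0, ← hC]

/-- **The general bound.** -/
theorem bound_gen {P : Finset (X × Y)} {M : X → Y → ℝ} {R C : ℝ} (hM : ∀ x y, 0 ≤ M x y)
    (hr : ∀ x, ∑ y, M x y ≤ R) (hc : ∀ y, ∑ x, M x y ≤ C)
    (h0 : ∀ a ∈ P, M a.1 a.2 = 0) (hP : Odd P.card) :
    dsum P M ≤ (P.card - 1) * R * C + min R C ^ 2 / 2 := by
  rcases le_total C R with h | h
  · rw [min_eq_right h]
    exact bound_ge hM h hr hc h0 hP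
  · rw [min_eq_left h, ← dsum_swap]
    have h1 := bound_ge (P := P.map (Equiv.prodComm X Y).toEmbedding) (M := fun y x => M x y)
      (R := C) (C := R) (fun y x => hM x y) h hc hr
      (fun a ha => by
        rw [Finset.mem_map] at ha
        obtain ⟨b, hb, rfl⟩ := ha
        exact h0 b hb)
      (by rw [Finset.card_map]; exact hP)
    rw [Finset.card_map] at h1
    refine h1.trans (le_of_eq ?_)
    ring

/-- passage from a family of positions to the set of positions -/
theorem dsum_image {t : ℕ} (p : Fin t → X × Y) (hp : Function.Injective p) (M : X → Y → ℝ) :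
    ∑ i, ∑ j, M (p i).1 (p j).2 * M (p j).1 (p i).2 = dsum (Finset.univ.image p) M := by
  unfold dsum
  rw [Finset.sum_image fun a _ b _ h => hp h]
  refine Finset.sum_congr rfl fun i _ => ?_
  rw [Finset.sum_image fun a _ b _ h => hp h]

theorem card_image {t : ℕ} (p : Fin t → X × Y) (hp : Function.Injective p) :
    (Finset.univ.image p).card = t := by
  rw [Finset.card_image_of_injective _ hp, Finset.card_univ, Fintype.card_fin]

end Pool.Agent.Q56.EE
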