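import Pool.Agent.Q56.EE.Gen

/-!
# The double sum over an odd number of zero positions: integral ratio
-/

namespace Pool.Agent.Q56.EE

open Finset

set_option linter.unusedSectionVars false

variable {X Y : Type} [Fintype X] [DecidableEq X] [Fintype Y] [DecidableEq Y]

/-- the integral real numbers -/
def IsI (a : ℝ) : Prop := ∃ n : ℤ, a = n

/-- the set of the fractional coordinates -/
noncomputable def frac (a : X → ℝ) : Finset X :=
  @Finset.filter X (fun x => ¬ IsI (a x)) (Classical.decPred _) Finset.univ

theorem mem_frac (a : X → ℝ) (x : X) : x ∈ frac a ↔ ¬ IsI (a x) := by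
  unfold frac
  simp

theorem isI_sum (s : Finset X) (a : X → ℝ) (h : ∀ x ∈ s, IsI (a x)) : IsI (∑ x ∈ s, a x) := by
  classical
  choose! f hf using h
  refine ⟨∑ x ∈ s, f x, ?_⟩
  push_cast
  exact Finset.sum_congr rfl fun x hx => hf x hx

/-- The conditions on a row. -/
structure Row (m z : ℕ) (x : X) (a : X → ℝ) : Prop where
  nonneg : ∀ u, 0 ≤ a u
  le : ∀ u, a u ≤ m
  self : a x = 0
  sum : ∑ u, a u ≤ z

/-- rounding up -/
theorem ceil_props {a : ℝ} (h0 : 0 ≤ a) (ha : ¬ IsI a) :
    a < (⌈a⌉ : ℝ) ∧ (⌊a⌋ : ℝ) < a ∧ (⌈a⌉ : ℝ) = ⌊a⌋ + 1 ∧ (0 : ℝ) ≤ ⌊a⌋ := by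
  have h1 : (⌊a⌋ : ℝ) < a := lt_of_le_of_ne (Int.floor_le a) fun h => ha ⟨_, h.symm⟩
  have h2 : a < (⌈a⌉ : ℝ) := lt_of_le_of_ne (Int.le_ceil a) fun h => ha ⟨_, h⟩
  have h3 : ⌈a⌉ = ⌊a⌋ + 1 := by
    rw [Int.ceil_eq_iff]
    push_cast
    constructor
    · linarith
    · linarith [Int.lt_floor_add_one a]
  refine ⟨h2, h1, by rw [h3]; push_cast; ring, ?_⟩
  exact_mod_cast Int.floor_nonneg.mpr h0

/-- **Rounding of a row**: a linear functional with nonnegative coefficients does not decrease. -/
theorem round_row (m z : ℕ) (x : X) (c : X → ℝ) (hc : ∀ u, 0 ≤ c u) :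
    ∀ (n : ℕ) (a : X → ℝ), Row m z x a → (frac a).card = n →
      ∃ b : X → ℝ, Row m z x b ∧ (∀ u, IsI (b u)) ∧ ∑ u, a u * c u ≤ ∑ u, b u * c u := by
  intro n
  induction n using Nat.strong_induction_on with
  | _ n ih =>
  intro a ha hn
  by_cases h0 : ∀ u, IsI (a u)
  · exact ⟨a, ha, h0, le_rfl⟩
  push Not at h0
  obtain ⟨u, hu⟩ := h0
  obtain ⟨hu1, hu2, hu3, hu4⟩ := ceil_props (ha.nonneg u) hu
  by_cases h1 : ∃ v, v ≠ u ∧ ¬ IsI (a v)
  · -- two fractional coordinates
    have hmain : ∀ u v : X, v ≠ u → ¬ IsI (a u) → ¬ IsI (a v) → c v ≤ c u →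
        ∃ b : X → ℝ, Row m z x b ∧ (∀ u, IsI (b u)) ∧ ∑ u, a u * c u ≤ ∑ u, b u * c u := by
      intro u v hvu hu hv hcv
      obtain ⟨hu1, hu2, hu3, hu4⟩ := ceil_props (ha.nonneg u) hu
      obtain ⟨hv1, hv2, hv3, hv4⟩ := ceil_props (ha.nonneg v) hv
      set δ : ℝ := min (⌈a u⌉ - a u) (a v - ⌊a v⌋) with hδ
      have hδ0 : 0 < δ := lt_min (by linarith) (by linarith)
      have hδ1 : δ ≤ ⌈a u⌉ - a u := min_le_left _ _
      have hδ2 : δ ≤ a v - ⌊a v⌋ := min_le_right _ _
      set b : X → ℝ := fun w => a w + (if w = u then δ else 0) - (if w = v then δ else 0) with hb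
      have hbu : b u = a u + δ := by simp [hb, hvu.symm]
      have hbv : b v = a v - δ := by simp [hb, hvu]
      have hbw : ∀ w, w ≠ u → w ≠ v → b w = a w := by
        intro w h1 h2
        simp [hb, h1, h2]
      have hceil : ((⌈a u⌉ : ℤ) : ℝ) ≤ m := by
        have : ⌈a u⌉ ≤ (m : ℤ) := Int.ceil_le.mpr (by exact_mod_cast ha.le u)
        exact_mod_cast this
      have hxu : x ≠ u := by
        rintro rfl
        exact hu ⟨0, by rw [ha.self]; simp⟩
      have hxv : x ≠ v := by
        rintro rfl
        exact hv ⟨0, by rw [ha.self]; simp⟩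
      have hrow : Row m z x b := by
        refine ⟨fun w => ?_, fun w => ?_, ?_, ?_⟩
        · by_cases h1 : w = u
          · rw [h1, hbu]
            linarith [ha.nonneg u]
          · by_cases h2 : w = v
            · rw [h2, hbv]
              linarith
            · rw [hbw w h1 h2]
              exact ha.nonneg w
        · by_cases h1 : w = u
          · rw [h1, hbu]
            linarith
          · by_cases h2 : w = v
            · rw [h2, hbv]
              linarith [ha.le v]
            · rw [hbw w h1 h2]
              exact ha.le w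
        · rw [hbw x hxu hxv]
          exact ha.self
        · have : ∑ w, b w = ∑ w, a w := by
            simp only [hb, Finset.sum_sub_distrib, Finset.sum_add_distrib]
            simp
          rw [this]
          exact ha.sum
      have hval : ∑ u, a u * c u ≤ ∑ u, b u * c u := by
        have : ∑ w, b w * c w = ∑ w, a w * c w + δ * (c u - c v) := by
          simp only [hb, sub_mul, add_mul, ite_mul, zero_mul, Finset.sum_sub_distrib,
            Finset.sum_add_distrib]
          simp
          ring
        rw [this]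
        have := mul_nonneg hδ0.le (sub_nonneg.mpr hcv)
        linarith
      have hcard : (frac b).card < n := by
        rw [← hn]
        refine Finset.card_lt_card (Finset.ssubset_iff_subset_ne.mpr ⟨?_, ?_⟩)
        · intro w hw
          rw [mem_frac] at hw ⊢
          by_cases h1 : w = u
          · rw [h1]
            exact hu
          · by_cases h2 : w = v
            · rw [h2]
              exact hv
            · rw [hbw w h1 h2] at hw
              exact hw
        · intro hcon
          rcases min_choice (⌈a u⌉ - a u) (a v - ⌊a v⌋) with h | h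
          · have : u ∈ frac b := by
              rw [hcon, mem_frac]
              exact hu
            rw [mem_frac, hbu, hδ, h] at this
            exact this ⟨⌈a u⌉, by ring⟩
          · have : v ∈ frac b := by
              rw [hcon, mem_frac]
              exact hv
            rw [mem_frac, hbv, hδ, h] at this
            exact this ⟨⌊a v⌋, by ring⟩
      obtain ⟨b', h1, h2, h3⟩ := ih _ hcard b hrow rfl
      exact ⟨b', h1, h2, hval.trans h3⟩
    obtain ⟨v, hvu, hv⟩ := h1
    rcases le_total (c v) (c u) with h | h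
    · exact hmain u v hvu hu hv h
    · exact hmain v u hvu.symm hv hu h
  · -- one fractional coordinate
    push Not at h1
    set b : X → ℝ := fun w => if w = u then (⌈a u⌉ : ℝ) else a w with hb
    have hxu : x ≠ u := by
      rintro rfl
      exact hu ⟨0, by rw [ha.self]; simp⟩
    have hab : ∀ w, a w ≤ b w := by
      intro w
      by_cases h : w = u
      · rw [h]
        simp only [hb, if_true]
        exact hu1.le
      · simp only [hb, if_neg h]
        exact le_rfl
    have hI : ∀ w, IsI (b w) := by
      intro w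
      by_cases h : w = u
      · exact ⟨⌈a u⌉, by simp [hb, h]⟩
      · simp only [hb, if_neg h]
        exact h1 w h
    refine ⟨b, ⟨fun w => (ha.nonneg w).trans (hab w), fun w => ?_, ?_, ?_⟩, hI,
      Finset.sum_le_sum fun w _ => mul_le_mul_of_nonneg_right (hab w) (hc w)⟩
    · by_cases h : w = u
      · simp only [hb, if_pos h]
        have : ⌈a u⌉ ≤ (m : ℤ) := Int.ceil_le.mpr (by exact_mod_cast ha.le u)
        exact_mod_cast this
      · simp only [hb, if_neg h]
        exact ha.le w
    · simp only [hb, if_neg hxu]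
      exact ha.self
    · obtain ⟨k, hk⟩ := isI_sum (Finset.univ.erase u) a fun w hw => h1 w (Finset.ne_of_mem_erase hw)
      have e1 : ∑ w, b w = ⌈a u⌉ + k := by
        rw [← Finset.add_sum_erase _ _ (Finset.mem_univ u), ← hk]
        congr 1
        · simp [hb]
        · exact Finset.sum_congr rfl fun w hw => by
            simp only [hb, if_neg (Finset.ne_of_mem_erase hw)]
      have e2 : a u + k ≤ z := by
        rw [← hk, Finset.add_sum_erase _ _ (Finset.mem_univ u)]
        exact ha.sum
      have e3 : ⌈a u⌉ ≤ (z : ℤ) - k := Int.ceil_le.mpr (by push_cast; linarith)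
      rw [e1]
      have e4 : ((⌈a u⌉ : ℤ) : ℝ) ≤ ((z : ℤ) - k : ℤ) := by exact_mod_cast e3
      push_cast at e4
      linarith

end Pool.Agent.Q56.EE
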