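import Mathlib

/-!
# A duality lemma for symmetric relations

For a symmetric irreflexive relation on a finite set `X`, every real number `ρ ≥ 0` and every
multiset `S` of subsets of `X` with an odd total number of elements there is a function `H` on the
subsets, Lipschitz for the symmetric difference and vanishing at the empty set, such that
`ρ ∑_v H (N (v)) - ∑_(z ∈ S) H (z) ≥ 1`, where `N (v)` is the set of the neighbours of `v`.
-/

namespace Pool.Agent.Q56.EE

open Finset
open scoped symmDiff

set_option linter.unusedSectionVars false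

variable {V : Type} [Fintype V] [DecidableEq V]

/-- Lipschitz function on the subsets, vanishing at the empty set -/
structure Lip (H : Finset V → ℝ) : Prop where
  zero : H ∅ = 0
  lip : ∀ z z', |H z - H z'| ≤ ((z ∆ z').card : ℝ)

theorem sum_mset (S : Multiset (Finset V)) (f : Finset V → ℝ) :
    (S.map f).sum = ∑ z : Finset V, (S.count z : ℝ) * f z := by
  rw [Finset.sum_multiset_map_count]
  have h : ∑ m ∈ S.toFinset, S.count m • f m = ∑ m ∈ S.toFinset, (S.count m : ℝ) * f m :=
    Finset.sum_congr rfl fun m _ => by rw [nsmul_eq_mul]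
  rw [h]
  refine Finset.sum_subset (Finset.subset_univ _) fun z _ hz => ?_
  rw [Multiset.mem_toFinset] at hz
  rw [Multiset.count_eq_zero_of_notMem hz]
  simp

theorem sum_fin (X : Finset V) (P : V → Finset V) (f : Finset V → ℝ) :
    ∑ v ∈ X, f (P v) = ∑ z : Finset V, ((X.filter fun v => P v = z).card : ℝ) * f z := by
  rw [← Finset.sum_fiberwise X P fun v => f (P v)]
  refine Finset.sum_congr rfl fun z _ => ?_
  rw [Finset.sum_congr rfl (g := fun _ => f z) fun v hv => by rw [(Finset.mem_filter.mp hv).2]]
  rw [Finset.sum_const, nsmul_eq_mul]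

/-- the indicator function of one nonempty set -/
theorem lip_ind (a : Finset V) (ha : a ≠ ∅) (s : ℝ) (hs : |s| ≤ 1) :
    Lip fun z => if z = a then s else 0 := by
  refine ⟨by simp [ha.symm], fun z z' => ?_⟩
  by_cases h : z = z'
  · subst h
    simp
  · have h1 : (1 : ℝ) ≤ ((z ∆ z').card : ℝ) := by
      have : 0 < (z ∆ z').card := by
        rw [Finset.card_pos, Finset.nonempty_iff_ne_empty]
        intro h0
        exact h (symmDiff_eq_bot.mp h0)
      exact_mod_cast this
    refine le_trans ?_ h1
    by_cases h2 : z = a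
    · have h3 : z' ≠ a := fun h3 => h (h2.trans h3.symm)
      simp [h2, h3, hs]
    · by_cases h3 : z' = a
      · simp [h2, h3, hs]
      · simp [h2, h3]

theorem card_symmDiff_inter (z z' B : Finset V) :
    ((z ∩ B) ∆ (z' ∩ B)) = (z ∆ z') ∩ B := by
  ext x
  simp only [Finset.mem_symmDiff, Finset.mem_inter]
  tauto

/-- restriction to two complementary sets of coordinates -/
theorem lip_add (B C : Finset V) (hBC : Disjoint B C) {H K : Finset V → ℝ} (hH : Lip H)
    (hK : Lip K) : Lip fun z => - H (z ∩ B) + K (z ∩ C) := by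
  refine ⟨by simp [hH.zero, hK.zero], fun z z' => ?_⟩
  have h1 := hH.lip (z ∩ B) (z' ∩ B)
  have h2 := hK.lip (z ∩ C) (z' ∩ C)
  rw [card_symmDiff_inter] at h1 h2
  have h3 : (((z ∆ z') ∩ B).card : ℝ) + (((z ∆ z') ∩ C).card : ℝ) ≤ ((z ∆ z').card : ℝ) := by
    have : ((z ∆ z') ∩ B).card + ((z ∆ z') ∩ C).card ≤ (z ∆ z').card := by
      rw [← Finset.card_union_of_disjoint]
      · exact Finset.card_le_card (Finset.union_subset Finset.inter_subset_left
          Finset.inter_subset_left)
      · exact Finset.disjoint_of_subset_left Finset.inter_subset_right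
          (Finset.disjoint_of_subset_right Finset.inter_subset_right hBC)
    exact_mod_cast this
  calc |(- H (z ∩ B) + K (z ∩ C)) - (- H (z' ∩ B) + K (z' ∩ C))|
      = |(K (z ∩ C) - K (z' ∩ C)) - (H (z ∩ B) - H (z' ∩ B))| := by congr 1; ring
    _ ≤ |K (z ∩ C) - K (z' ∩ C)| + |H (z ∩ B) - H (z' ∩ B)| := abs_sub _ _
    _ ≤ _ := by linarith

section rel
variable (adj : V → V → Prop) [DecidableRel adj]

/-- the neighbours of `v` in `X` -/
def nb (X : Finset V) (v : V) : Finset V := X.filter (adj v)

theorem nb_inter (X B : Finset V) (hB : B ⊆ X) (v : V) : nb adj X v ∩ B = nb adj B v := by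
  ext x
  simp only [nb, Finset.mem_inter, Finset.mem_filter]
  constructor
  · rintro ⟨⟨_, h⟩, h'⟩
    exact ⟨h', h⟩
  · rintro ⟨h, h'⟩
    exact ⟨⟨hB h, h'⟩, h⟩

variable {adj}

/-- double counting -/
theorem sum_nb_comm (hs : ∀ v w, adj v w → adj w v) (X B : Finset V) :
    ∑ v ∈ X, (nb adj B v).card = ∑ b ∈ B, (nb adj X b).card := by
  simp only [nb, Finset.card_filter]
  rw [Finset.sum_comm]
  refine Finset.sum_congr rfl fun b _ => Finset.sum_congr rfl fun v _ => ?_
  by_cases h : adj v b
  · simp [h, hs _ _ h]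
  · have h' : ¬ adj b v := fun h' => h (hs _ _ h')
    simp [h, h']

/-- the sum of the degrees is even -/
theorem even_sum_nb (hs : ∀ v w, adj v w → adj w v) (hi : ∀ v, ¬ adj v v) (X : Finset V) :
    Even (∑ v ∈ X, (nb adj X v).card) := by
  induction X using Finset.induction_on with
  | empty => simp
  | insert a X ha ih =>
    have h1 : ∀ v, (nb adj (insert a X) v).card = (nb adj X v).card + if adj v a then 1 else 0 := by
      intro v
      simp only [nb, Finset.filter_insert]
      by_cases h : adj v a
      · rw [if_pos h, if_pos h, Finset.card_insert_of_notMem (by simp [ha])]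
      · simp [h]
    rw [Finset.sum_insert ha, h1 a, if_neg (hi a), Nat.add_zero,
      Finset.sum_congr rfl fun v _ => h1 v, Finset.sum_add_distrib]
    have h2 : ∑ v ∈ X, (if adj v a then 1 else 0) = (nb adj X a).card := by
      simp only [nb, Finset.card_filter]
      refine Finset.sum_congr rfl fun v _ => ?_
      by_cases h : adj v a
      · simp [h, hs _ _ h]
      · have h' : ¬ adj a v := fun h' => h (hs _ _ h')
        simp [h, h']
    rw [h2]
    have h3 : (nb adj X a).card + (∑ v ∈ X, (nb adj X v).card + (nb adj X a).card) =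
        2 * (nb adj X a).card + ∑ v ∈ X, (nb adj X v).card := by ring
    rw [h3]
    exact (even_two_mul _).add ih

/-- the choice of a set of rows with the given numbers of patterns -/
theorem exists_rows (X : Finset V) (P : V → Finset V) (N : Finset V → ℕ)
    (hN : ∀ z, z ≠ ∅ → N z ≤ (X.filter fun v => P v = z).card) :
    ∃ B ⊆ X, ∀ z, z ≠ ∅ → (B.filter fun v => P v = z).card = N z := by
  classical
  have h : ∀ z, ∃ T ⊆ X.filter (fun v => P v = z), z ≠ ∅ → T.card = N z := by
    intro z
    by_cases hz : z = ∅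
    · exact ⟨∅, Finset.empty_subset _, fun h => absurd hz h⟩
    · obtain ⟨T, hT, hc⟩ := Finset.exists_subset_card_eq (hN z hz)
      exact ⟨T, hT, fun _ => hc⟩
  choose T hT hc using h
  refine ⟨X.filter fun v => v ∈ T (P v), Finset.filter_subset _ _, fun z hz => ?_⟩
  rw [← hc z hz]
  congr 1
  ext v
  simp only [Finset.mem_filter]
  constructor
  · rintro ⟨⟨_, h⟩, rfl⟩
    exact h
  · intro h
    have h' := Finset.mem_filter.mp (hT z h)
    exact ⟨⟨h'.1, by rw [h'.2]; exact h⟩, h'.2⟩

theorem key (hs : ∀ v w, adj v w → adj w v) (hi : ∀ v, ¬ adj v v) :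
    ∀ (n : ℕ) (X : Finset V), X.card = n → ∀ ρ : ℝ, 0 ≤ ρ → ∀ S : Multiset (Finset V),
      Odd (S.map Finset.card).sum → ∃ H : Finset V → ℝ, Lip H ∧
        1 ≤ ρ * ∑ v ∈ X, H (nb adj X v) - (S.map H).sum := by
  intro n
  induction n using Nat.strong_induction_on with
  | _ n ih =>
  intro X hX ρ hρ S hS
  by_cases hbig : ∃ a : Finset V, a ≠ ∅ ∧
      1 ≤ |ρ * ((X.filter fun v => nb adj X v = a).card : ℝ) - (S.count a : ℝ)|
  · obtain ⟨a, ha, h1⟩ := hbig
    set σ := ρ * ((X.filter fun v => nb adj X v = a).card : ℝ) - (S.count a : ℝ) with hσ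
    have h2 : ∀ s : ℝ, ρ * ∑ v ∈ X, (fun z => if z = a then s else 0) (nb adj X v) -
        (S.map fun z => if z = a then s else 0).sum = s * σ := by
      intro s
      rw [sum_mset, sum_fin X (nb adj X) fun z => if z = a then s else 0]
      simp only [mul_ite, mul_zero, Finset.sum_ite_eq', Finset.mem_univ, if_true]
      rw [hσ]
      ring
    rcases le_abs.mp h1 with h | h
    · exact ⟨_, lip_ind a ha 1 (by simp), by rw [h2]; linarith⟩
    · exact ⟨_, lip_ind a ha (-1) (by simp), by rw [h2]; linarith⟩
  · push Not at hbig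
    obtain ⟨m, φ, hφ0, hφ1, hρm⟩ : ∃ (m : ℕ) (φ : ℝ), 0 ≤ φ ∧ φ < 1 ∧ ρ = m + φ :=
      ⟨⌊ρ⌋₊, ρ - ⌊ρ⌋₊, sub_nonneg.mpr (Nat.floor_le hρ), by linarith [Nat.lt_floor_add_one ρ],
        by ring⟩
    set c : Finset V → ℕ := fun z => (X.filter fun v => nb adj X v = z).card with hc
    have hcount : ∀ z, z ≠ ∅ → m * c z ≤ S.count z ∧ S.count z - m * c z ≤ c z := by
      intro z hz
      have h := abs_lt.mp (hbig z (Finset.nonempty_iff_ne_empty.mpr hz))
      have hcz : (0 : ℝ) ≤ c z := Nat.cast_nonneg _
      have h1 : (0 : ℝ) ≤ φ * c z := mul_nonneg hφ0 hcz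
      have h2 : φ * c z ≤ c z := by nlinarith
      have ha : ((m * c z : ℕ) : ℝ) < (S.count z : ℝ) + 1 := by
        push_cast
        have := h.2
        rw [hρm] at this
        nlinarith
      have hb : (S.count z : ℝ) < ((m * c z + c z + 1 : ℕ) : ℝ) := by
        push_cast
        have := h.1
        rw [hρm] at this
        nlinarith
      have ha' : m * c z < S.count z + 1 := by exact_mod_cast ha
      have hb' : S.count z < m * c z + c z + 1 := by exact_mod_cast hb
      omega
    obtain ⟨B, hBX, hB⟩ := exists_rows X (nb adj X) (fun z => S.count z - m * c z)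
      fun z hz => (hcount z hz).2
    have hcnt : ∀ z, z ≠ ∅ → S.count z = m * c z + (B.filter fun v => nb adj X v = z).card := by
      intro z hz
      rw [hB z hz]
      have := (hcount z hz).1
      omega
    have hsum : ∀ f : Finset V → ℝ, f ∅ = 0 →
        (S.map f).sum = m * ∑ v ∈ X, f (nb adj X v) + ∑ b ∈ B, f (nb adj X b) := by
      intro f hf
      rw [sum_mset, sum_fin X (nb adj X) f, sum_fin B (nb adj X) f, Finset.mul_sum,
        ← Finset.sum_add_distrib]
      refine Finset.sum_congr rfl fun z _ => ?_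
      by_cases hz : z = ∅
      · subst hz
        simp [hf]
      · rw [hcnt z hz]
        push_cast
        ring
    have hsumN : (S.map Finset.card).sum =
        m * ∑ v ∈ X, (nb adj X v).card + ∑ b ∈ B, (nb adj X b).card := by
      have h := hsum (fun z => (z.card : ℝ)) (by simp)
      have h' : (S.map fun z => (z.card : ℝ)).sum = (((S.map Finset.card).sum : ℕ) : ℝ) := by
        rw [Nat.cast_multiset_sum, Multiset.map_map]
        rfl
      rw [h'] at h
      exact_mod_cast h
    have hoddB : Odd (∑ b ∈ B, (nb adj X b).card) := by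
      rw [hsumN] at hS
      have := even_sum_nb hs hi X
      rcases Nat.even_or_odd (∑ b ∈ B, (nb adj X b).card) with he | ho
      · exact absurd ((this.mul_left m).add he) (Nat.not_even_iff_odd.mpr hS)
      · exact ho
    set C := X \ B with hC
    have hCX : C ⊆ X := Finset.sdiff_subset
    have hdisj : Disjoint B C := Finset.disjoint_sdiff
    have hsplit : ∀ f : V → ℝ, ∑ v ∈ X, f v = ∑ v ∈ B, f v + ∑ v ∈ C, f v := by
      intro f
      rw [add_comm, hC, Finset.sum_sdiff hBX]
    have hsplitN : ∀ f : V → ℕ, ∑ v ∈ X, f v = ∑ v ∈ B, f v + ∑ v ∈ C, f v := by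
      intro f
      rw [add_comm, hC, Finset.sum_sdiff hBX]
    have hoddC : Odd (∑ b ∈ C, (nb adj X b).card) := by
      have h1 := even_sum_nb hs hi X
      rw [hsplitN] at h1
      rcases Nat.even_or_odd (∑ b ∈ C, (nb adj X b).card) with he | ho
      · exact absurd h1 (Nat.not_even_iff_odd.mpr (hoddB.add_even he))
      · exact ho
    have hBne : B.Nonempty := by
      rw [Finset.nonempty_iff_ne_empty]
      rintro rfl
      simp at hoddB
    have hCne : C.Nonempty := by
      rw [Finset.nonempty_iff_ne_empty]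
      intro h
      rw [h] at hoddC
      simp at hoddC
    have hBc : B.card < n := by
      rw [← hX]
      refine Finset.card_lt_card (Finset.ssubset_iff_subset_ne.mpr ⟨hBX, fun h => ?_⟩)
      rw [hC, h, Finset.sdiff_self] at hCne
      exact Finset.not_nonempty_empty hCne
    have hCc : C.card < n := by
      have := Finset.card_sdiff_add_card_eq_card hBX
      have h2 : 0 < B.card := Finset.card_pos.mpr hBne
      rw [← hC] at this
      omega
    have hφ : 0 < φ := by
      rcases hφ0.lt_or_eq with h | h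
      · exact h
      · exfalso
        obtain ⟨b, hb⟩ := hBne
        have hbne : ∃ b ∈ B, nb adj X b ≠ ∅ := by
          by_contra hcon
          push Not at hcon
          have : ∑ b ∈ B, (nb adj X b).card = 0 :=
            Finset.sum_eq_zero fun b hb => by rw [hcon b hb]; simp
          rw [this] at hoddB
          simp at hoddB
        obtain ⟨b, hb, hbe⟩ := hbne
        have h1 := hbig _ (Finset.nonempty_iff_ne_empty.mpr hbe)
        rw [hρm, ← h, hcnt _ hbe] at h1
        push_cast at h1
        have h2 : (((m : ℝ) + 0) * ((X.filter fun v => nb adj X v = nb adj X b).card : ℝ) -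
            (m * (c (nb adj X b) : ℝ) + ((B.filter fun v => nb adj X v = nb adj X b).card : ℝ))) =
            - ((B.filter fun v => nb adj X v = nb adj X b).card : ℝ) := by
          simp only [hc]
          ring
        rw [h2, abs_neg, Nat.abs_cast] at h1
        have h3 : 0 < (B.filter fun v => nb adj X v = nb adj X b).card :=
          Finset.card_pos.mpr ⟨b, Finset.mem_filter.mpr ⟨hb, rfl⟩⟩
        have h4 : (1 : ℝ) ≤ ((B.filter fun v => nb adj X v = nb adj X b).card : ℝ) := by
          exact_mod_cast h3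
        linarith
    have hφ' : 0 < 1 - φ := by linarith
    have hmapB : ∀ (L : Finset V) (f : Finset V → ℝ), L ⊆ X →
        ((X.val.map fun v => nb adj L v).map f).sum = ∑ v ∈ X, f (nb adj X v ∩ L) := by
      intro L f hL
      rw [Multiset.map_map]
      change ∑ v ∈ X, f (nb adj L v) = _
      exact Finset.sum_congr rfl fun v _ => by rw [nb_inter adj X L hL v]
    have hodd' : ∀ L : Finset V, Odd (∑ b ∈ L, (nb adj X b).card) →
        Odd ((X.val.map fun v => nb adj L v).map Finset.card).sum := by
      intro L h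
      rw [Multiset.map_map]
      change Odd (∑ v ∈ X, (nb adj L v).card)
      rw [sum_nb_comm hs]
      exact h
    obtain ⟨H, hH, hH1⟩ := ih B.card hBc B rfl (1 / φ) (by positivity) _ (hodd' B hoddB)
    obtain ⟨K, hK, hK1⟩ := ih C.card hCc C rfl (1 / (1 - φ)) (by positivity) _ (hodd' C hoddC)
    rw [hmapB B H hBX] at hH1
    rw [hmapB C K hCX] at hK1
    refine ⟨_, lip_add B C hdisj hH hK, ?_⟩
    rw [hsum _ (lip_add B C hdisj hH hK).zero, hρm]
    have e1 : ∑ b ∈ B, H (nb adj B b) = ∑ b ∈ B, H (nb adj X b ∩ B) :=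
      Finset.sum_congr rfl fun b _ => by rw [nb_inter adj X B hBX]
    have e2 : ∑ b ∈ C, K (nb adj C b) = ∑ b ∈ C, K (nb adj X b ∩ C) :=
      Finset.sum_congr rfl fun b _ => by rw [nb_inter adj X C hCX]
    rw [e1] at hH1
    rw [e2] at hK1
    simp only [Finset.sum_add_distrib, Finset.sum_neg_distrib]
    have e3 := hsplit fun v => K (nb adj X v ∩ C)
    set a1 := ∑ v ∈ X, H (nb adj X v ∩ B)
    set a2 := ∑ v ∈ B, H (nb adj X v ∩ B)
    set b1 := ∑ v ∈ X, K (nb adj X v ∩ C)
    set b2 := ∑ v ∈ B, K (nb adj X v ∩ C)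
    set b3 := ∑ v ∈ C, K (nb adj X v ∩ C)
    have f1 : φ ≤ a2 - φ * a1 := by
      have := mul_le_mul_of_nonneg_left hH1 hφ.le
      have h3 : φ * (1 / φ * a2 - a1) = a2 - φ * a1 := by
        field_simp
      linarith
    have f2 : 1 - φ ≤ b3 - (1 - φ) * b1 := by
      have := mul_le_mul_of_nonneg_left hK1 hφ'.le
      have h3 : (1 - φ) * (1 / (1 - φ) * b3 - b1) = b3 - (1 - φ) * b1 := by
        field_simp
      linarith
    nlinarith

end rel

end Pool.Agent.Q56.EE
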