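import Pool.Agent.Q56.EE.Int

/-!
# The double sum over an odd number of zero positions: integral ratio, final form
-/

namespace Pool.Agent.Q56.EE

open Finset

set_option linter.unusedSectionVars false

variable {X Y : Type} [Fintype X] [DecidableEq X] [Fintype Y] [DecidableEq Y]

theorem split_sum (x : X) (b : X → X → ℝ) (h : b x x = 0) :
    ∑ y, ∑ u, b y u * b u y = ∑ y ∈ Finset.univ.erase x, ∑ u ∈ Finset.univ.erase x, b y u * b u y +
      2 * ∑ u, b x u * b u x := by
  rw [← Finset.add_sum_erase _ _ (Finset.mem_univ x)]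
  have h1 : ∑ y ∈ Finset.univ.erase x, ∑ u, b y u * b u y =
      ∑ y ∈ Finset.univ.erase x, b y x * b x y +
        ∑ y ∈ Finset.univ.erase x, ∑ u ∈ Finset.univ.erase x, b y u * b u y := by
    rw [← Finset.sum_add_distrib]
    exact Finset.sum_congr rfl fun y _ => (Finset.add_sum_erase _ _ (Finset.mem_univ x)).symm
  have h2 : ∑ y ∈ Finset.univ.erase x, b y x * b x y = ∑ u, b x u * b u x := by
    rw [← Finset.add_sum_erase Finset.univ (fun u => b x u * b u x) (Finset.mem_univ x), h]
    simp only [mul_zero, zero_add]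
    exact Finset.sum_congr rfl fun y _ => mul_comm _ _
  rw [h1, h2]
  ring

/-- rounding of all the rows -/
theorem round_all (m : ℕ) (z : X → ℕ) (a : X → X → ℝ) (ha : ∀ x, Row m (z x) x (a x)) :
    ∀ s : Finset X, ∃ b : X → X → ℝ, (∀ x, Row m (z x) x (b x)) ∧ (∀ x ∈ s, ∀ u, IsI (b x u)) ∧
      ∑ x, ∑ u, a x u * a u x ≤ ∑ x, ∑ u, b x u * b u x := by
  intro s
  induction s using Finset.induction_on with
  | empty => exact ⟨a, ha, by simp, le_rfl⟩
  | insert x s hx ih =>
    obtain ⟨b, hb, hI, hle⟩ := ih
    obtain ⟨r, hr, hrI, hrle⟩ := round_row m (z x) x (fun u => b u x) (fun u => (hb u).nonneg x) _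
      (b x) (hb x) rfl
    refine ⟨Function.update b x r, fun y => ?_, fun y hy u => ?_, hle.trans ?_⟩
    · by_cases h : y = x
      · subst h
        rw [Function.update_self]
        exact hr
      · rw [Function.update_of_ne h]
        exact hb y
    · by_cases h : y = x
      · subst h
        rw [Function.update_self]
        exact hrI u
      · rw [Function.update_of_ne h]
        exact hI y ((Finset.mem_insert.mp hy).resolve_left h) u
    · rw [split_sum x b (hb x).self, split_sum x (Function.update b x r)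
        (by rw [Function.update_self]; exact hr.self)]
      have h1 : ∑ y ∈ Finset.univ.erase x, ∑ u ∈ Finset.univ.erase x,
          Function.update b x r y u * Function.update b x r u y =
          ∑ y ∈ Finset.univ.erase x, ∑ u ∈ Finset.univ.erase x, b y u * b u y := by
        refine Finset.sum_congr rfl fun y hy => Finset.sum_congr rfl fun u hu => ?_
        rw [Function.update_of_ne (Finset.ne_of_mem_erase hy),
          Function.update_of_ne (Finset.ne_of_mem_erase hu)]
      have h2 : ∑ u, Function.update b x r x u * Function.update b x r u x =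
          ∑ u, r u * b u x := by
        refine Finset.sum_congr rfl fun u _ => ?_
        rw [Function.update_self]
        by_cases h : u = x
        · subst h
          rw [hr.self, (hb u).self]
          simp
        · rw [Function.update_of_ne h]
      rw [h1, h2]
      simpa using hrle

/-- the elementary inequality for a pair -/
theorem pair_nonneg {k l m : ℤ} (hk : 0 ≤ k) (hl : 0 ≤ l) (hkm : k ≤ m) (hlm : l ≤ m) :
    0 ≤ m * k + m * l - 2 * (k * l) := by
  nlinarith [mul_nonneg hk (sub_nonneg.mpr hlm), mul_nonneg hl (sub_nonneg.mpr hkm)]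

theorem pair_lt {k l m : ℤ} (hk : 0 ≤ k) (hlm : l ≤ m) (h : k < l) :
    m ≤ m * k + m * l - 2 * (k * l) := by
  obtain ⟨a, ha⟩ := Int.eq_ofNat_of_zero_le (show 0 ≤ l - k - 1 by omega)
  obtain ⟨b, hb⟩ := Int.eq_ofNat_of_zero_le (show 0 ≤ m - l by omega)
  obtain ⟨c, rfl⟩ := Int.eq_ofNat_of_zero_le hk
  have hl : l = c + 1 + a := by omega
  have hm : m = c + 1 + a + b := by omega
  subst hl
  subst hm
  have h1 : ((c : ℤ) + 1 + a + b) * c + (c + 1 + a + b) * (c + 1 + a) - 2 * (c * (c + 1 + a)) =
      (c + 1 + a + b) + (c * a + a + a * a + 2 * (c * b) + a * b) := by ring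
  rw [h1]
  have h2 : (0 : ℤ) ≤ c * a + a + a * a + 2 * (c * b) + a * b := by positivity
  linarith

theorem pair_odd {k l m : ℤ} (hk : 0 ≤ k) (hl : 0 ≤ l) (hkm : k ≤ m) (hlm : l ≤ m)
    (h : Odd (k + l)) : m ≤ m * k + m * l - 2 * (k * l) := by
  rcases lt_trichotomy k l with h1 | h1 | h1
  · exact pair_lt hk hlm h1
  · exfalso
    subst h1
    exact (Int.not_even_iff_odd.mpr h) (Even.add_self k)
  · have := pair_lt hl hkm h1
    linarith

/-- the bound for an integral matrix -/
theorem int_bound (m : ℤ) (t : ℕ) (k : X → X → ℤ) (h0 : ∀ x u, 0 ≤ k x u) (hm : ∀ x u, k x u ≤ m)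
    (hx : ∀ x, k x x = 0) (ht : ∑ x, ∑ u, k x u ≤ t) (hodd : Odd t) (hm0 : 0 ≤ m) :
    ∑ x, ∑ u, k x u * k u x ≤ m * (t - 1) := by
  classical
  set T := ∑ x, ∑ u, k x u with hT
  set F := ∑ x, ∑ u, k x u * k u x with hF
  set g : X → X → ℤ := fun x u => m * k x u + m * k u x - 2 * (k x u * k u x) with hg
  have hg0 : ∀ x u, 0 ≤ g x u := fun x u => pair_nonneg (h0 x u) (h0 u x) (hm x u) (hm u x)
  have hG : ∑ x, ∑ u, g x u = 2 * (m * T) - 2 * F := by
    simp only [hg, Finset.sum_sub_distrib, Finset.sum_add_distrib, ← Finset.mul_sum]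
    have : ∑ x, ∑ u, k u x = T := by
      rw [hT, Finset.sum_comm]
    rw [this]
    ring
  have hG0 : 0 ≤ ∑ x, ∑ u, g x u := Finset.sum_nonneg fun x _ => Finset.sum_nonneg fun u _ => hg0 x u
  rcases ht.lt_or_eq with h | h
  · have h1 : F ≤ m * T := by linarith
    have h2 : m * T ≤ m * (t - 1) := mul_le_mul_of_nonneg_left (by omega) hm0
    linarith
  · -- there is an odd pair
    have hex : ∃ x u, Odd (k x u + k u x) := by
      by_contra hcon
      push Not at hcon
      have hs : ∀ x u, Odd (k x u) → Odd (k u x) := by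
        intro x u h1
        have h2 := hcon x u
        rw [Int.not_odd_iff_even, Int.even_add'] at h2
        exact h2.mp h1
      have hi : ∀ x, ¬ Odd (k x x) := by
        intro x
        rw [hx]
        decide
      have h3 := even_sum_nb (adj := fun x u => Odd (k x u)) hs hi Finset.univ
      have h4 : ((T : ℤ) : ZMod 2) = 0 := by
        have h5 : ((T : ℤ) : ZMod 2) =
            ((∑ v, (nb (fun x u => Odd (k x u)) Finset.univ v).card : ℕ) : ZMod 2) := by
          rw [hT]
          push_cast
          refine Finset.sum_congr rfl fun x _ => ?_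
          unfold nb
          rw [Finset.card_filter]
          push_cast
          refine Finset.sum_congr rfl fun u _ => ?_
          by_cases h6 : Odd (k x u)
          · rw [if_pos h6]
            obtain ⟨c, hc⟩ := h6
            rw [hc]
            push_cast
            have : (2 : ZMod 2) = 0 := rfl
            rw [this]
            simp
          · rw [if_neg h6]
            rw [Int.not_odd_iff_even] at h6
            obtain ⟨c, hc⟩ := h6
            rw [hc]
            push_cast
            rw [← two_mul]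
            have : (2 : ZMod 2) = 0 := rfl
            rw [this]
            simp
        rw [h5, ZMod.natCast_eq_zero_iff]
        exact h3.two_dvd
      rw [h, Int.cast_natCast, ZMod.natCast_eq_zero_iff] at h4
      exact (Nat.not_even_iff_odd.mpr hodd) (even_iff_two_dvd.mpr h4)
    obtain ⟨x, u, hxu⟩ := hex
    have hne : x ≠ u := by
      rintro rfl
      rw [hx] at hxu
      exact absurd hxu (by decide)
    have h1 : m ≤ g x u := pair_odd (h0 x u) (h0 u x) (hm x u) (hm u x) hxu
    have h2 : m ≤ g u x := pair_odd (h0 u x) (h0 x u) (hm u x) (hm x u) (by rw [add_comm]; exact hxu)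
    have h3 : g x u + g u x ≤ ∑ x, ∑ u, g x u := by
      have h4 : ∀ x u, g x u ≤ ∑ u, g x u := fun x u =>
        Finset.single_le_sum (fun u _ => hg0 x u) (Finset.mem_univ u)
      have h5 : ∑ x' ∈ ({x, u} : Finset X), ∑ u, g x' u ≤ ∑ x, ∑ u, g x u :=
        Finset.sum_le_sum_of_subset_of_nonneg (Finset.subset_univ _)
          fun i _ _ => Finset.sum_nonneg fun u _ => hg0 i u
      rw [Finset.sum_pair hne] at h5
      linarith [h4 x u, h4 u x]
    rw [hG] at h3
    rw [← h, mul_sub, mul_one]
    linarith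

/-- the bound for column sums at most one and row sums at most an integer `m` -/
theorem ratio_one {P : Finset (X × Y)} {M : X → Y → ℝ} {m : ℕ} (hM : ∀ x y, 0 ≤ M x y)
    (hr : ∀ x, ∑ y, M x y ≤ m) (hc : ∀ y, ∑ x, M x y ≤ 1)
    (h0 : ∀ a ∈ P, M a.1 a.2 = 0) (hP : Odd P.card) :
    dsum P M ≤ (P.card - 1) * m := by
  have hrow : ∀ x, Row m (zz P x) x (qq P M x) := fun x =>
    ⟨qq_nonneg hM x, fun u => qq_le hM hr x u, qq_self h0 x, sum_qq_le hc x⟩
  obtain ⟨b, hb, hI, hle⟩ := round_all m (zz P) (qq P M) hrow Finset.univ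
  have hI' : ∀ x u, ∃ k : ℤ, b x u = k := fun x u => hI x (Finset.mem_univ x) u
  choose k hk using hI'
  have h1 := int_bound (m : ℤ) P.card k
    (fun x u => by
      have := (hb x).nonneg u
      rw [hk] at this
      exact_mod_cast this)
    (fun x u => by
      have := (hb x).le u
      rw [hk] at this
      exact_mod_cast this)
    (fun x => by
      have := (hb x).self
      rw [hk] at this
      exact_mod_cast this)
    (by
      rw [← sum_zz P]
      push_cast
      refine Finset.sum_le_sum fun x _ => ?_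
      have := (hb x).sum
      simp only [hk] at this
      exact_mod_cast this) hP (Int.natCast_nonneg m)
  rw [dsum_eq]
  refine hle.trans ?_
  simp only [hk]
  have h2 : ((∑ x, ∑ u, k x u * k u x : ℤ) : ℝ) ≤ ((m * (P.card - 1) : ℤ) : ℝ) := by
    exact_mod_cast h1
  push_cast at h2
  linarith

/-- the bound for `R = m C` -/
theorem ratio_C {P : Finset (X × Y)} {M : X → Y → ℝ} {m : ℕ} {C : ℝ} (hM : ∀ x y, 0 ≤ M x y)
    (hr : ∀ x, ∑ y, M x y ≤ m * C) (hc : ∀ y, ∑ x, M x y ≤ C)
    (h0 : ∀ a ∈ P, M a.1 a.2 = 0) (hP : Odd P.card) :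
    dsum P M ≤ (P.card - 1) * (m * C) * C := by
  have hne : P.Nonempty := by
    rw [Finset.nonempty_iff_ne_empty]
    rintro rfl
    simp at hP
  obtain ⟨⟨x0, y0⟩, -⟩ := hne
  have hC0 : 0 ≤ C := le_trans (Finset.sum_nonneg fun x _ => hM x y0) (hc y0)
  rcases hC0.lt_or_eq with hC | hC
  · have h1 := ratio_one (P := P) (M := fun x y => M x y / C) (m := m)
      (fun x y => div_nonneg (hM x y) hC0)
      (fun x => by
        rw [← Finset.sum_div, div_le_iff₀ hC]
        exact hr x)
      (fun y => by
        rw [← Finset.sum_div, div_le_one hC]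
        exact hc y)
      (fun a ha => by rw [h0 a ha]; simp) hP
    rw [dsum_div P M C hC.ne']
    have h2 := mul_le_mul_of_nonneg_left h1 (sq_nonneg C)
    refine h2.trans (le_of_eq ?_)
    ring
  · have hM0 : ∀ x y, M x y = 0 := by
      intro x y
      have h1 : M x y ≤ ∑ x, M x y := Finset.single_le_sum (fun x _ => hM x y) (Finset.mem_univ x)
      have h2 := hc y
      rw [← hC] at h2
      exact le_antisymm (h1.trans h2) (hM x y)
    unfold dsum
    simp [hM0, ← hC]

/-- **The integral ratio.** -/
theorem ratio_gen {P : Finset (X × Y)} {M : X → Y → ℝ} {R C : ℝ} (hM : ∀ x y, 0 ≤ M x y)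
    (hr : ∀ x, ∑ y, M x y ≤ R) (hc : ∀ y, ∑ x, M x y ≤ C)
    (h0 : ∀ a ∈ P, M a.1 a.2 = 0) (hP : Odd P.card) (h : ∃ m : ℕ, R = m * C ∨ C = m * R) :
    dsum P M ≤ (P.card - 1) * R * C := by
  obtain ⟨m, h | h⟩ := h
  · rw [h] at hr ⊢
    exact ratio_C hM hr hc h0 hP
  · rw [h] at hc ⊢
    rw [← dsum_swap]
    have h1 := ratio_C (P := P.map (Equiv.prodComm X Y).toEmbedding) (M := fun y x => M x y)
      (m := m) (C := R) (fun y x => hM x y) hc hr
      (fun a ha => by
        rw [Finset.mem_map] at ha
        obtain ⟨b, hb, rfl⟩ := ha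
        exact h0 b hb)
      (by rw [Finset.card_map]; exact hP)
    rw [Finset.card_map] at h1
    refine h1.trans (le_of_eq ?_)
    ring

end Pool.Agent.Q56.EE
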